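import Pool.Agent.Run7.h798.UV.Ind
import Pool.Agent.Run7.h798.UV.FPair
import Pool.Agent.Q193.LT.Key

/-!
# Motivic homology, étale homology and the conditions TB (MP_2ce3e7_ag)

`RegMod E` consists of the linear maps `reg : M → H` of vector spaces over a field `E` (for example `ℚ_ℓ`)
together with an endomorphism `F` of `H` such that `F ∘ reg = reg`. `Theory p E` collects known properties
of motivic homology `M = H_i^M(X, ℚ(j)) ⊗ ℚ_ℓ`, étale homology `H = H_i(X_{k̄}, ℚ_ℓ(j))`, of Frobenius
and of the regulator, for separated schemes `X` of finite type over the finite fields `k` of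
characteristic `p ≠ ℓ`. The index `(i, j)` is a pair of integers.
-/

set_option autoImplicit false

open CategoryTheory AlgebraicGeometry Pool.Agent.Y116.UV Pool.Agent.Q193.LT Pool.Agent.Q282.UZ
  Run7.h798.UV

universe w

namespace Run7.h798.TB

/-- The translation `(i, j) ↦ (i + a, j + b)`. -/
def shift (a b : ℤ) : ℤ × ℤ ≃ ℤ × ℤ := (Equiv.addRight a).prodCongr (Equiv.addRight b)

/-- A scheme over the field `k` of characteristic `p`, considered as a scheme over `ℤ/p`. -/
noncomputable def restrict (p : ℕ) {k : Type} [Field k] [CharP k p] (X : Sch k) : Sch (ZMod p) :=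
  Over.mk (X.hom ≫ Spec.map (CommRingCat.ofHom (ZMod.castHom (dvd_refl p) k)))

/-- **Motivic homology, étale homology and the regulator** over the finite fields `k` of characteristic
`p`: `T k (i, j) X` is the regulator `H_i^M(X, ℚ(j)) ⊗ E → H_i(X_{k̄}, E(j))` together with the Frobenius
of `k`. The assumed properties:

* `isReg`: étale homology is finite-dimensional; invariance under isomorphisms over `k`; long exact
  sequences `⋯ → T_{i,j} Z → T_{i,j} X → T_{i,j} U → T_{i-1,j} Z → ⋯` for a closed subscheme `Z` of
  `X` and its complement `U`; `T_{i,j} Y ≅ T_{i-2m+2,j-m+1} U` for the bundle `Y → U` of Jouanolou with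
  fibre `𝔸^{m-1}` over the open subscheme `U` of an affine scheme, given by `m` functions; for affine `X`
  the object `T_{i,j} X` is a direct factor of `T_{i+1,j} (X × 𝔾_m)` (product with the coordinate in
  `H¹(𝔾_m, ℚ(1))` and boundary map);
* `curves`: the condition TB for the schemes of dimension at most one (Harder, Jannsen);
* `restricts`: restriction of the base field from `k` to `ℤ/p` does not change motivic homology, and
  étale homology is replaced by the induced module. -/
structure Theory (p : ℕ) [Fact p.Prime] (E : Type) [Field E] where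
  /-- the regulators -/
  T : ∀ (k : Type) [Field k] [Finite k] [CharP k p], ℤ × ℤ → Sch k → RegMod.{w} E
  isReg : ∀ (k : Type) [Field k] [Finite k] [CharP k p],
    IsReg (T k) (shift (-1) 0) (shift 2 1) (shift 1 0)
  curves : ∀ (k : Type) [Field k] [Finite k] [CharP k p] (X : Sch k), FT True X →
    topologicalKrullDim X.left ≤ 1 → ∀ q, (T k q X).TB
  restricts : ∀ (k : Type) [Field k] [Finite k] [CharP k p] (n : ℕ), Nat.card k = p ^ (n + 1) →
    ∀ (X : Sch k), FT True X → ∀ q, IsInduced (T k q X) (T (ZMod p) q (restrict p X)) n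

section

variable {p : ℕ} [Fact p.Prime] {E : Type} [Field E]

/-- **TB(X)**: for all `i, j` the regulator is an isomorphism onto the invariants of Frobenius on étale
homology, and the eigenvalue `1` of Frobenius is semisimple. -/
def Theory.Conj (D : Theory.{w} p E) (k : Type) [Field k] [Finite k] [CharP k p] (X : Sch k) : Prop :=
  ∀ q, (D.T k q X).TB

/-- TB(X) for all separated schemes `X` of finite type over the finite fields of characteristic `p` (Q1
in characteristic `p`). -/
def Theory.All (D : Theory.{w} p E) : Prop :=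
  ∀ (k : Type) [Field k] [Finite k] [CharP k p] (X : Sch k), FT True X → D.Conj k X

/-- TB(X) for all separated schemes `X` of finite type over `k` of dimension at most `n`. -/
def Theory.Dim (D : Theory.{w} p E) (k : Type) [Field k] [Finite k] [CharP k p] (n : ℕ) : Prop :=
  ∀ X : Sch k, FT True X → topologicalKrullDim X.left ≤ n → D.Conj k X

/-- TB for the hypersurfaces `T(x, y, z) = 1` over `k`, where `T` is a trilinear form one of whose three
blocks of variables has at most `n` variables. -/
def Theory.Block (D : Theory.{w} p E) (k : Type) [Field k] [Finite k] [CharP k p] (n : ℕ) : Prop :=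
  ∀ (a b c : ℕ) (T : Fin a → Fin b → Fin c → k), (a ≤ n ∨ b ≤ n ∨ c ≤ n) → D.Conj k (hypS T)

lemma Theory.point (D : Theory.{w} p E) (k : Type) [Field k] [Finite k] [CharP k p] :
    ∀ q, (D.T k q (aff k k)).TB := by
  refine D.curves k _ (ft_aff True) ?_
  rw [Pool.Agent.Z125.UN.topDim_aff, ringKrullDim_eq_zero_of_field]
  exact zero_le_one

lemma bnd (D : Theory.{w} p E) (k : Type) [Field k] [Finite k] [CharP k p] :
    Pool.Agent.Z125.UN.Bnd True (D.Conj k) := by
  have h2 := bnd_pair (isPair_of (D.isReg k)) (bij_pairOf.mpr (D.point k))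
  have h3 : D.Conj k = BijAll (pairOf (D.T k)) := by
    funext X
    exact propext bij_pairOf.symm
  rw [h3]
  exact h2

lemma funi (D : Theory.{w} p E) (k : Type) [Field k] [Finite k] [CharP k p] :
    FUni True fun (N : ℤ) (X : Sch k) => ∀ q : ℤ × ℤ, -N ≤ q.1 - 2 * q.2 → (D.T k q X).TB := by
  refine funi_reg (d := fun q : ℤ × ℤ => q.1 - 2 * q.2) (D.isReg k) ?_ ?_ ?_ (D.point k)
  · rintro ⟨i, j⟩
    change i + -1 - 2 * (j + 0) = i - 2 * j - 1
    ring
  · rintro ⟨i, j⟩
    change i + 2 - 2 * (j + 1) = i - 2 * j
    ring
  · rintro ⟨i, j⟩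
    change i + 1 - 2 * (j + 0) = i - 2 * j + 1
    ring

lemma ft_restrict {k : Type} [Field k] [Finite k] [CharP k p] {X : Sch k} (hX : FT True X) :
    FT True (restrict p X) := by
  have h1 : (ZMod.castHom (dvd_refl p) k).Finite := by
    let := (ZMod.castHom (dvd_refl p) k).toAlgebra
    exact (inferInstance : Module.Finite (ZMod p) k)
  have h2 : IsFinite (Spec.map (CommRingCat.ofHom (ZMod.castHom (dvd_refl p) k))) :=
    (IsFinite.SpecMap_iff _).mpr h1
  have := hX.1
  have := hX.2
  have := hX.3 trivial
  refine ⟨?_, ?_, fun _ => ?_⟩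
  · change LocallyOfFiniteType (X.hom ≫ _)
    infer_instance
  · change QuasiCompact (X.hom ≫ _)
    infer_instance
  · change IsSeparated (X.hom ≫ _)
    infer_instance

lemma all_iff_prime [CharZero E] (D : Theory.{w} p E) :
    D.All ↔ ∀ X : Sch (ZMod p), FT True X → D.Conj (ZMod p) X := by
  constructor
  · intro h X hX
    exact h (ZMod p) X hX
  · intro h k _ _ _ X hX q
    obtain ⟨n, hn⟩ : ∃ n : ℕ, Nat.card k = p ^ (n + 1) := by
      have := Fintype.ofFinite k
      obtain ⟨n, _, hn⟩ := FiniteField.card k p
      refine ⟨(n : ℕ) - 1, ?_⟩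
      rw [Nat.card_eq_fintype_card, hn, Nat.sub_add_cancel n.pos]
    exact (tb_induced (D.restricts k n hn X hX q)).mp (h _ (ft_restrict hX) q)

end

end Run7.h798.TB
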